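import Pool.Agent.Helper92.AH.Defs

/-!
# MP_c38931_co, module BOXSUM: sum over all points of a polynomial of small degree
-/

set_option autoImplicit false

namespace Pool.Agent.Helper92.AH

open MvPolynomial

/-- **Module BOXSUM.** -/
theorem st_BOXSUM (hS : ST_SUMU) : ST_BOXSUM := by
  intro p _ F E _ _ _ _ _ _ N B s H hps hdeg
  classical
  have hchar : CharP E p := charP_of_injective_algebraMap (algebraMap F E).injective p
  obtain ⟨Q, hQ⟩ : ∃ Q, Q = Fintype.card E := ⟨_, rfl⟩
  rw [← hQ] at hps hdeg ⊢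
  have hQ1 : 1 < Q := hQ ▸ Fintype.one_lt_card
  obtain ⟨ρ, hρ⟩ : ∃ ρ, ρ = WittVector.map (p := p) (algebraMap F E) := ⟨_, rfl⟩
  rw [← hρ]
  rw [← Ideal.mem_span_singleton, ← Ideal.Quotient.eq]
  obtain ⟨π, hπ⟩ : ∃ π, π = Ideal.Quotient.mk (Ideal.span {(p : WittVector p E) ^ s}) := ⟨_, rfl⟩
  rw [← hπ]
  have hQ0 : π ((Q : ℕ) : WittVector p E) = 0 := by
    rw [hπ, Ideal.Quotient.eq_zero_iff_mem, Ideal.mem_span_singleton]
    obtain ⟨c, hc⟩ := hps
    exact ⟨(c : WittVector p E), by rw [hc]; push_cast; ring⟩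
  -- one variable sums
  have hone : ∀ u : ℕ, π (∑ z : E, WittVector.teichmuller p z ^ u) =
      if u ≠ 0 ∧ (Q - 1) ∣ u then -1 else 0 := by
    intro u
    rw [hS p E u, ← hQ]
    by_cases h0 : u = 0
    · rw [if_pos h0, hQ0, if_neg (fun h => h.1 h0)]
    · by_cases h1 : (Q - 1) ∣ u
      · rw [if_neg h0, if_pos h1, if_pos ⟨h0, h1⟩, map_sub, hQ0, map_one, zero_sub]
      · rw [if_neg h0, if_neg h1, if_neg (fun h => h1 h.2), map_zero]
  -- expansion of the sum
  have h1 : ∑ x : Fin N → E, ev p x H = ∑ w ∈ H.support, ρ (coeff w H) *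
      ∏ j, ∑ z : E, WittVector.teichmuller p z ^ (w j) := by
    have h2 : ∀ x : Fin N → E, ev p x H = ∑ w ∈ H.support, ρ (coeff w H) *
        ∏ j, WittVector.teichmuller p (x j) ^ (w j) := by
      intro x
      unfold ev
      rw [eval₂_eq', hρ]
    simp only [h2]
    rw [Finset.sum_comm]
    refine Finset.sum_congr rfl fun w _ => ?_
    rw [← Finset.mul_sum]
    congr 1
    have h3 := Finset.prod_univ_sum (fun _ : Fin N => (Finset.univ : Finset E))
      (fun (j : Fin N) (z : E) => WittVector.teichmuller p z ^ (w j))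
    rw [Fintype.piFinset_univ] at h3
    exact h3.symm
  obtain ⟨e, he⟩ : ∃ e : (Fin N → Fin B) → (Fin N →₀ ℕ), ∀ w, e w =
      Finsupp.equivFunOnFinite.symm fun j => (Q - 1) * ((w j : ℕ) + 1) := ⟨_, fun _ => rfl⟩
  have hej : ∀ w j, e w j = (Q - 1) * ((w j : ℕ) + 1) := by
    intro w j
    rw [he]
    rfl
  have heinj : Function.Injective e := by
    intro w w' h
    funext j
    apply Fin.ext
    have h2 := DFunLike.congr_fun h j
    rw [hej, hej] at h2
    have h3 := Nat.eq_of_mul_eq_mul_left (by omega : 0 < Q - 1) h2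
    omega
  -- the value of the product
  have hprod : ∀ w ∈ H.support, (∏ j, (if w j ≠ 0 ∧ (Q - 1) ∣ w j then (-1 : _) else 0) :
      WittVector p E ⧸ Ideal.span {(p : WittVector p E) ^ s}) =
      if w ∈ Finset.univ.image e then (-1) ^ N else 0 := by
    intro w hw
    by_cases h : ∀ j, w j ≠ 0 ∧ (Q - 1) ∣ w j
    · have h2 : w ∈ Finset.univ.image e := by
        have h3 : ∀ j, ∃ i : Fin B, w j = (Q - 1) * ((i : ℕ) + 1) := by
          intro j
          obtain ⟨h4, c, hc⟩ := h j
          have hc0 : c ≠ 0 := by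
            intro h5
            rw [h5, mul_zero] at hc
            exact h4 hc
          have h5 : w j ≤ degreeOf j H := by
            rw [degreeOf_eq_sup]
            exact Finset.le_sup (f := fun m : Fin N →₀ ℕ => m j) hw
          have h6 : (Q - 1) * c ≤ (Q - 1) * B := by
            rw [← hc]
            exact h5.trans (hdeg j)
          have h7 := Nat.le_of_mul_le_mul_left h6 (by omega : 0 < Q - 1)
          refine ⟨⟨c - 1, by omega⟩, ?_⟩
          show w j = (Q - 1) * (c - 1 + 1)
          rw [Nat.sub_add_cancel (Nat.one_le_iff_ne_zero.2 hc0)]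
          exact hc
        choose i hi using h3
        refine Finset.mem_image.2 ⟨i, Finset.mem_univ _, ?_⟩
        ext j
        rw [hej, hi]
      rw [if_pos h2]
      calc _ = ∏ _j : Fin N, (-1 : WittVector p E ⧸ Ideal.span {(p : WittVector p E) ^ s}) :=
            Finset.prod_congr rfl fun j _ => if_pos (h j)
        _ = _ := by rw [Finset.prod_const, Finset.card_univ, Fintype.card_fin]
    · push Not at h
      obtain ⟨j, hj⟩ := h
      have h2 : w ∉ Finset.univ.image e := by
        intro h3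
        obtain ⟨i, _, rfl⟩ := Finset.mem_image.1 h3
        rw [hej] at hj
        refine hj ?_ (dvd_mul_right _ _)
        have : 0 < (Q - 1) * ((i j : ℕ) + 1) := Nat.mul_pos (by omega) (Nat.succ_pos _)
        omega
      rw [if_neg h2]
      refine Finset.prod_eq_zero (Finset.mem_univ j) ?_
      rw [if_neg]
      rintro ⟨h3, h4⟩
      exact hj h3 h4
  have hL : π (∑ x : Fin N → E, ev p x H) = ∑ w ∈ H.support,
      if w ∈ Finset.univ.image e then π (ρ (coeff w H)) * (-1) ^ N else 0 := by
    rw [h1, map_sum]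
    refine Finset.sum_congr rfl fun w hw => ?_
    rw [map_mul, map_prod]
    simp only [hone]
    rw [hprod w hw, mul_ite, mul_zero]
  rw [hL, ← Finset.sum_filter, map_mul, map_pow, map_neg, map_one, map_sum, Finset.mul_sum]
  have hR : ∑ w : Fin N → Fin B, (-1) ^ N * π (ρ (coeff
      (Finsupp.equivFunOnFinite.symm fun j => (Q - 1) * ((w j : ℕ) + 1)) H)) =
      ∑ w ∈ Finset.univ.image e, π (ρ (coeff w H)) * (-1) ^ N := by
    rw [Finset.sum_image heinj.injOn]
    refine Finset.sum_congr rfl fun w _ => ?_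
    rw [he, mul_comm]
  rw [hR]
  refine Finset.sum_subset ?_ ?_
  · intro w hw
    exact (Finset.mem_filter.1 hw).2
  · intro w hw hw2
    have h2 : coeff w H = 0 := by
      by_contra h3
      exact hw2 (Finset.mem_filter.2 ⟨mem_support_iff.2 h3, hw⟩)
    rw [h2, map_zero, map_zero, zero_mul]

end Pool.Agent.Helper92.AH
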