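import Pool.Agent.Helper92.AH.Defs

/-!
# MP_c38931_co, module TRID: trace of an idempotent matrix over a local ring
-/

set_option autoImplicit false

namespace Pool.Agent.Helper92.AH

theorem trid_factor (R ι : Type) [CommRing R] [IsLocalRing R] [Fintype ι] [DecidableEq ι]
    (e : Matrix ι ι R) (he : IsIdempotentElem e) :
    ∃ (r : ℕ) (A : Matrix ι (Fin r) R) (B : Matrix (Fin r) ι R), e = A * B ∧ B * A = 1 := by
  let f : (ι → R) →ₗ[R] (ι → R) := Matrix.toLin' e
  have hff : ∀ x, f (f x) = f x := by
    intro x
    have h1 : f ∘ₗ f = f := by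
      show Matrix.toLin' e ∘ₗ Matrix.toLin' e = Matrix.toLin' e
      rw [← Matrix.toLin'_mul, he.eq]
    exact LinearMap.congr_fun h1 x
  have hproj : Module.Projective R (LinearMap.range f) := by
    refine Module.Projective.of_split (LinearMap.range f).subtype f.rangeRestrict ?_
    ext ⟨y, x, rfl⟩
    simp only [LinearMap.comp_apply, Submodule.subtype_apply, LinearMap.id_apply]
    show f (f x) _ = f x _
    rw [hff]
  have hfin : Module.Finite R (LinearMap.range f) := inferInstance
  have hfree : Module.Free R (LinearMap.range f) := Module.free_of_flat_of_isLocalRing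
  let b := Module.finBasis R (LinearMap.range f)
  refine ⟨_, Matrix.of fun i j => (b j : ι → R) i,
    Matrix.of fun j i => b.repr (f.rangeRestrict (Pi.single i 1)) j, ?_, ?_⟩
  · ext i i'
    rw [Matrix.mul_apply]
    show e i i' = ∑ j, ((b j : LinearMap.range f) : ι → R) i *
      b.repr (f.rangeRestrict (Pi.single i' 1)) j
    have h1 := b.sum_repr (f.rangeRestrict (Pi.single i' 1))
    have h2 := congrArg (fun y : LinearMap.range f => (y : ι → R) i) h1
    have h3 : ((f.rangeRestrict (Pi.single i' 1) : LinearMap.range f) : ι → R) i = e i i' := by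
      show Matrix.toLin' e (Pi.single i' 1) i = e i i'
      rw [Matrix.toLin'_apply, Matrix.mulVec_single_one]
      rfl
    rw [← h3, ← h2]
    show (((∑ j, (b.repr (f.rangeRestrict (Pi.single i' 1)) j) • b j : LinearMap.range f) :
      ι → R)) i = _
    rw [Submodule.coe_sum, Finset.sum_apply]
    refine Finset.sum_congr rfl fun j _ => ?_
    rw [Submodule.coe_smul, Pi.smul_apply, smul_eq_mul, mul_comm]
  · ext j j'
    rw [Matrix.mul_apply]
    show ∑ i, b.repr (f.rangeRestrict (Pi.single i 1)) j * ((b j' : LinearMap.range f) : ι → R) i =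
      (1 : Matrix _ _ R) j j'
    have h1 : ((b j' : LinearMap.range f) : ι → R) =
        ∑ i, ((b j' : LinearMap.range f) : ι → R) i • (Pi.single i (1 : R) : ι → R) := by
      funext i
      rw [Finset.sum_apply]
      simp [Pi.single_apply]
    have h2 : f.rangeRestrict ((b j' : LinearMap.range f) : ι → R) = b j' := by
      obtain ⟨x, hx⟩ := (b j').2
      apply Subtype.ext
      show f ((b j' : LinearMap.range f) : ι → R) = ((b j' : LinearMap.range f) : ι → R)
      rw [← hx, hff]
    have h3 : b.repr (f.rangeRestrict ((b j' : LinearMap.range f) : ι → R)) j =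
        ∑ i, b.repr (f.rangeRestrict (Pi.single i 1)) j * ((b j' : LinearMap.range f) : ι → R) i := by
      conv_lhs => rw [h1]
      rw [map_sum, map_sum, Finsupp.finsetSum_apply]
      refine Finset.sum_congr rfl fun i _ => ?_
      rw [map_smul, map_smul, Finsupp.smul_apply, smul_eq_mul, mul_comm]
    rw [← h3, h2, Module.Basis.repr_self, Matrix.one_apply, Finsupp.single_apply]
    simp only [eq_comm]

/-- **Module TRID.** -/
theorem st_TRID : ST_TRID := by
  intro R k ι _ _ _ _ _ φ e he
  obtain ⟨r, A, B, hAB, hBA⟩ := trid_factor R ι e he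
  have h1 : Matrix.trace e = (r : R) := by
    rw [hAB, Matrix.trace_mul_comm, hBA, Matrix.trace_one, Fintype.card_fin]
  have h2 : (e.map φ).rank = r := by
    have e1 : e.map φ = A.map φ * B.map φ := by rw [hAB, Matrix.map_mul]
    have e2 : B.map φ * A.map φ = 1 := by
      rw [← Matrix.map_mul, hBA, Matrix.map_one _ (map_zero φ) (map_one φ)]
    apply le_antisymm
    · rw [e1]
      refine (Matrix.rank_mul_le_left _ _).trans ?_
      have := Matrix.rank_le_card_width (A.map φ)
      rwa [Fintype.card_fin] at this
    · have e3 : B.map φ * (e.map φ) * A.map φ = 1 := by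
        rw [e1, ← Matrix.mul_assoc, e2, Matrix.one_mul, e2]
      have e4 : ((1 : Matrix (Fin r) (Fin r) k)).rank = r := by
        rw [Matrix.rank_one, Fintype.card_fin]
      rw [← e4, ← e3]
      exact (Matrix.rank_mul_le_left _ _).trans (Matrix.rank_mul_le_right _ _)
  rw [h1, h2]

end Pool.Agent.Helper92.AH
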