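import Pool.Agent.Helper92.AH.Defs

/-!
# MP_c38931_co, module UV: factorisation of `CM` for `G(X^q)` and `G`
-/

set_option autoImplicit false

namespace Pool.Agent.Helper92.AH

open MvPolynomial

/-- **Module UV.** -/
theorem st_UV : ST_UV := by
  intro R _ N q B G hq
  classical
  obtain ⟨U, hU⟩ : ∃ U : Matrix (Fin N → Fin (q * B)) (Fin N → Fin B) R, ∀ w w'',
      U w w'' = if ∀ j, (w'' j : ℕ) ≤ (w j : ℕ) then
        coeff (Finsupp.equivFunOnFinite.symm fun j => (w j : ℕ) - (w'' j : ℕ)) G else 0 :=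
    ⟨fun w w'' => if ∀ j, (w'' j : ℕ) ≤ (w j : ℕ) then
        coeff (Finsupp.equivFunOnFinite.symm fun j => (w j : ℕ) - (w'' j : ℕ)) G else 0,
      fun _ _ => rfl⟩
  obtain ⟨V, hV⟩ : ∃ V : Matrix (Fin N → Fin B) (Fin N → Fin (q * B)) R, ∀ w'' w',
      V w'' w' = if ∀ j, (w' j : ℕ) + 1 = q * ((w'' j : ℕ) + 1) then 1 else 0 :=
    ⟨fun w'' w' => if ∀ j, (w' j : ℕ) + 1 = q * ((w'' j : ℕ) + 1) then 1 else 0, fun _ _ => rfl⟩
  have hCM : ∀ (C : ℕ) (H : MvPolynomial (Fin N) R) (w w' : Fin N → Fin C), CM q C H w w' =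
      if ∀ j, (w' j : ℕ) + 1 ≤ q * ((w j : ℕ) + 1) then coeff (ex q w w') H else 0 :=
    fun _ _ _ _ => by
      unfold CM
      split_ifs <;> rfl
  refine ⟨U, V, ?_, ?_⟩
  · ext w w'
    rw [Matrix.mul_apply, hCM]
    simp only [hU, hV]
    by_cases hdiv : ∀ j, q ∣ (w' j : ℕ) + 1
    · choose c hc using hdiv
      have hc0 : ∀ j, 1 ≤ c j := by
        intro j
        rcases Nat.eq_zero_or_pos (c j) with h | h
        · have := hc j
          rw [h, mul_zero] at this
          omega
        · exact h
      have hcB : ∀ j, c j - 1 < B := by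
        intro j
        have h1 : (w' j : ℕ) + 1 ≤ q * B := (w' j).2
        rw [hc j] at h1
        have h2 : c j ≤ B := Nat.le_of_mul_le_mul_left h1 hq
        have := hc0 j
        omega
      let v : Fin N → Fin B := fun j => ⟨c j - 1, hcB j⟩
      have hv : ∀ j, (w' j : ℕ) + 1 = q * ((v j : ℕ) + 1) := by
        intro j
        show (w' j : ℕ) + 1 = q * (c j - 1 + 1)
        rw [Nat.sub_add_cancel (hc0 j)]
        exact hc j
      rw [Finset.sum_eq_single v]
      · rw [if_pos hv, mul_one]
        have hiff : (∀ j, (w' j : ℕ) + 1 ≤ q * ((w j : ℕ) + 1)) ↔ ∀ j, (v j : ℕ) ≤ (w j : ℕ) := by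
          refine forall_congr' fun j => ?_
          rw [hv j]
          constructor
          · intro h
            have := Nat.le_of_mul_le_mul_left h hq
            omega
          · intro h
            exact Nat.mul_le_mul_left q (by omega)
        by_cases h : ∀ j, (v j : ℕ) ≤ (w j : ℕ)
        · rw [if_pos (hiff.2 h), if_pos h]
          have e : ex q w w' = q • (Finsupp.equivFunOnFinite.symm
              fun j => (w j : ℕ) - (v j : ℕ) : Fin N →₀ ℕ) := by
            ext j
            show q * ((w j : ℕ) + 1) - ((w' j : ℕ) + 1) = q * ((w j : ℕ) - (v j : ℕ))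
            rw [hv j, ← Nat.mul_sub]
            congr 1
            omega
          rw [e, coeff_expand_smul q (by omega)]
        · rw [if_neg (fun h' => h (hiff.1 h')), if_neg h]
      · intro u _ hu
        have hneg : ¬ ∀ j, (w' j : ℕ) + 1 = q * ((u j : ℕ) + 1) := by
          intro h
          apply hu
          funext j
          apply Fin.ext
          have h1 := (h j).symm.trans (hv j)
          have h2 := Nat.eq_of_mul_eq_mul_left hq h1
          omega
        rw [if_neg hneg, mul_zero]
      · intro h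
        exact absurd (Finset.mem_univ v) h
    · push Not at hdiv
      obtain ⟨j0, hj0⟩ := hdiv
      rw [Finset.sum_eq_zero]
      · split_ifs with h
        · apply coeff_expand_of_not_dvd (i := j0)
          intro hd
          apply hj0
          have h1 : ex q w w' j0 = q * ((w j0 : ℕ) + 1) - ((w' j0 : ℕ) + 1) := rfl
          rw [h1] at hd
          have h2 : (w' j0 : ℕ) + 1 = q * ((w j0 : ℕ) + 1) -
              (q * ((w j0 : ℕ) + 1) - ((w' j0 : ℕ) + 1)) := by
            have := h j0
            omega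
          rw [h2]
          exact Nat.dvd_sub (dvd_mul_right _ _) hd
        · rfl
      · intro u _
        have hneg : ¬ ∀ j, (w' j : ℕ) + 1 = q * ((u j : ℕ) + 1) := fun h => hj0 ⟨_, h j0⟩
        rw [if_neg hneg, mul_zero]
  · ext w w'
    rw [Matrix.mul_apply, hCM]
    simp only [hU, hV]
    have hvB : ∀ j, q * ((w j : ℕ) + 1) - 1 < q * B := by
      intro j
      have h1 : (w j : ℕ) + 1 ≤ B := (w j).2
      have h2 : q * ((w j : ℕ) + 1) ≤ q * B := Nat.mul_le_mul_left q h1
      have h3 : 1 ≤ q * ((w j : ℕ) + 1) := Nat.mul_pos hq (Nat.succ_pos _)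
      omega
    let v : Fin N → Fin (q * B) := fun j => ⟨q * ((w j : ℕ) + 1) - 1, hvB j⟩
    have hv : ∀ j, (v j : ℕ) + 1 = q * ((w j : ℕ) + 1) := by
      intro j
      show q * ((w j : ℕ) + 1) - 1 + 1 = _
      have h3 : 1 ≤ q * ((w j : ℕ) + 1) := Nat.mul_pos hq (Nat.succ_pos _)
      omega
    rw [Finset.sum_eq_single v]
    · rw [if_pos hv, one_mul]
      have hiff : (∀ j, (w' j : ℕ) + 1 ≤ q * ((w j : ℕ) + 1)) ↔ ∀ j, (w' j : ℕ) ≤ (v j : ℕ) := by
        refine forall_congr' fun j => ?_
        rw [← hv j]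
        omega
      by_cases h : ∀ j, (w' j : ℕ) ≤ (v j : ℕ)
      · rw [if_pos (hiff.2 h), if_pos h]
        congr 1
        ext j
        show q * ((w j : ℕ) + 1) - ((w' j : ℕ) + 1) = (v j : ℕ) - (w' j : ℕ)
        rw [← hv j]
        omega
      · rw [if_neg (fun h' => h (hiff.1 h')), if_neg h]
    · intro u _ hu
      rw [if_neg, zero_mul]
      intro h
      apply hu
      funext j
      apply Fin.ext
      have := h j
      have := hv j
      omega
    · intro h
      exact absurd (Finset.mem_univ v) h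

end Pool.Agent.Helper92.AH
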